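import Pool.Agent.H21.L.R_pool_sql_team_seeded_2aa45f1a.Q5.LI.Half

/-!
# Linear independence of the set of frequencies and the random model with multiplicities as weights
-/

set_option autoImplicit false

open Filter Topology Set Complex MeasureTheory
open Pool.Agent.Q5.AP
open Pool.Agent.TH270.MS (BM)

namespace Pool.Agent.Q5.LI

/-- the set of the `t > 0` with `m t ≠ 0` is linearly independent over `ℚ` -/
def LinS (m : ℝ → ℕ) : Prop := LinearIndepOn ℚ id {t : ℝ | 0 < t ∧ m t ≠ 0}

/-- the factor of the characteristic function at the frequency `t` -/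
noncomputable def facS (m : ℝ → ℕ) (K : ℂ) (t : ℝ) : ℝ := if 0 < t then bz ((m t : ℂ) * K / t) else 1

/-- the random model for the function `f` -/
def ModelS (m : ℝ → ℕ) (f : ℝ → ℝ) : Prop :=
  ∀ (k : ℕ) (h ξ : Fin k → ℝ), (∀ j, 0 ≤ h j) →
    ∃ L : ℂ, HasProd (fun t : ℝ => ((facS m (kf h ξ t) t : ℝ) : ℂ)) L ∧
      Tendsto (M fun u => exp (((∑ j, ξ j * f (u + h j) : ℝ) : ℂ) * I)) atTop (𝓝 L)

theorem facS_near (m : ℝ → ℕ) (K : ℂ) {C : ℝ} (hK : ‖K‖ ≤ C) (t : ℝ) :
    ‖((facS m K t : ℝ) : ℂ) - 1‖ ≤ 2 * C ^ 2 * ‖cm m t‖ ^ 2 := by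
  rw [norm_cm_sq]
  unfold facS
  split_ifs with ht
  · have h1 : ((bz ((m t : ℂ) * K / t) : ℝ) : ℂ) - 1 = ((bz ((m t : ℂ) * K / t) - 1 : ℝ) : ℂ) := by
      push_cast; rfl
    rw [h1, Complex.norm_real, Real.norm_eq_abs]
    have h2 := bz_sub_one ((m t : ℂ) * K / t)
    rw [norm_div, norm_mul, Complex.norm_natCast, Complex.norm_real, Real.norm_of_nonneg ht.le] at h2
    refine h2.trans ?_
    have h3 : ((m t : ℝ) * ‖K‖ / t) ^ 2 ≤ ((m t : ℝ) * C / t) ^ 2 := by gcongr
    calc 2 * ((m t : ℝ) * ‖K‖ / t) ^ 2 ≤ 2 * ((m t : ℝ) * C / t) ^ 2 := by linarith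
      _ = 2 * C ^ 2 * ((m t : ℝ) / t) ^ 2 := by ring
  · simp only [Complex.ofReal_one, sub_self, norm_zero]
    positivity

variable {f : ℝ → ℝ} {m : ℝ → ℕ} {V : ℝ}

theorem li_subS (h : LinS m) (S : Finset ℝ) (hS : ∀ t ∈ S, 0 < t ∧ m t ≠ 0) (n : S → ℤ)
    (hn : ∑ j, (n j : ℝ) * (j : ℝ) = 0) : n = 0 := by
  have h1 : LinearIndependent ℚ fun x : {t : ℝ | 0 < t ∧ m t ≠ 0} => id (x : ℝ) := h
  have h2 := h1.comp (fun j : S => (⟨(j : ℝ), hS j j.2⟩ : {t : ℝ | 0 < t ∧ m t ≠ 0}))
    fun x y hxy => Subtype.ext (by simpa using congrArg Subtype.val hxy)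
  rw [Fintype.linearIndependent_iff] at h2
  have h3 := h2 (fun j => (n j : ℚ)) (by
    refine Eq.trans (Finset.sum_congr rfl fun j _ => ?_) hn
    rw [Rat.smul_def]
    push_cast
    rfl)
  funext j
  have := h3 j
  exact_mod_cast this

/-- **The random model under linear independence.** -/
theorem model_of_liS (P : Par (fun u => (f u : ℂ)) (cm m) V) (hm : ∀ t, m (-t) = m t) (hli : LinS m) :
    ModelS m f := by
  classical
  intro k h ξ hh
  obtain ⟨U, hU⟩ := comb P h ξ hh
  set G : ℝ → ℝ := fun u => ∑ j, ξ j * f (u + h j) with hG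
  obtain ⟨z, hz⟩ := Par.exp_mean (g := G) hU
  refine ⟨z, ?_, hz⟩
  set b : ℝ → ℂ := fun t => cm m t * kf h ξ t with hb
  have hbc : ∀ t, (starRingEnd ℂ) (b (-t)) = b t := by
    intro t
    rw [hb]
    simp only
    rw [map_mul, cm_conj hm, kf_conj]
  have hb0 : ∀ t, m t = 0 → b t = 0 := by
    intro t ht
    rw [hb]
    simp only
    unfold cm
    rw [ht]
    simp
  have hb00 : b 0 = 0 := by
    rw [hb]
    simp only
    rw [cm_zero, zero_mul]
  rw [HasProd, Metric.tendsto_nhds]
  intro ε hε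
  have hev : ∀ᶠ S₁ : Finset ℝ in atTop, dist (∑ t ∈ S₁, ‖b t‖ ^ 2) U < ε ^ 2 :=
    (Metric.tendsto_nhds.1 hU.pa) (ε ^ 2) (by positivity)
  obtain ⟨S₁, hS₁⟩ := hev.exists
  rw [Real.dist_eq, abs_lt] at hS₁
  filter_upwards [eventually_ge_atTop (S₁.image fun t => |t|)] with S hS
  rw [dist_comm, dist_eq_norm]
  set Sp : Finset ℝ := S.filter fun t => 0 < t ∧ m t ≠ 0 with hSp
  have hSpos : ∀ t ∈ Sp, 0 < t ∧ m t ≠ 0 := fun t ht => (Finset.mem_filter.1 ht).2
  have hkw := kw_of_li (γ := fun j : Sp => (j : ℝ)) (fun n hn => li_subS hli Sp hSpos n hn)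
    (fun j : Sp => b j)
  have hprod : ∏ t ∈ S, ((facS m (kf h ξ t) t : ℝ) : ℂ) = ((∏ j : Sp, bz (b j) : ℝ) : ℂ) := by
    rw [← Complex.ofReal_prod]
    congr 1
    rw [Finset.prod_coe_sort Sp fun x => bz (b x), hSp, Finset.prod_filter]
    refine Finset.prod_congr rfl fun t _ => ?_
    unfold facS
    by_cases ht : 0 < t
    · by_cases hmt : m t = 0
      · rw [if_pos ht, hmt, Nat.cast_zero, zero_mul, zero_div, bz_zero, if_neg fun h' => h'.2 rfl]
      · rw [if_pos ht, if_pos ⟨ht, hmt⟩]
        refine bz_norm ?_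
        rw [hb]
        simp only
        rw [norm_mul, norm_cm, norm_div, norm_mul, Complex.norm_natCast, Complex.norm_real, Real.norm_eq_abs]
        ring
    · rw [if_neg ht, if_neg fun h' => ht h'.1]
  rw [hprod]
  obtain ⟨U', hU'⟩ := par_tpoly (fun j : Sp => (j : ℝ)) (fun j : Sp => b j)
  have hD0 := hU.add (hU'.const_mul (-1))
  set W : ℝ := U + ‖(-1 : ℂ)‖ ^ 2 * U' + 2 * (∑' t, b t * (starRingEnd ℂ)
    (-1 * tco (fun j : Sp => (j : ℝ)) (fun j : Sp => b j) t)).re with hW
  have hD : Par (fun u => (G u : ℂ) - (tpoly (fun j : Sp => (j : ℝ)) (fun j : Sp => b j) u : ℂ))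
      (fun t => b t + -1 * tco (fun j : Sp => (j : ℝ)) (fun j : Sp => b j) t) W := by
    convert! hD0 using 1
    funext u
    ring
  have hlip := exp_lip (G := G) (P := tpoly (fun j : Sp => (j : ℝ)) (fun j : Sp => b j)) hU.loc
    hU'.loc hD hz hkw
  refine hlip.trans_lt ?_
  have hW2 : W + ∑ t ∈ S₁, ‖b t‖ ^ 2 ≤ U := by
    have h1 : HasSum (fun t => if t ∈ S₁ then ‖b t‖ ^ 2 else 0) (∑ t ∈ S₁, ‖b t‖ ^ 2) := by
      have h0 : HasSum (fun t => if t ∈ S₁ then ‖b t‖ ^ 2 else 0)
          (∑ t ∈ S₁, if t ∈ S₁ then ‖b t‖ ^ 2 else 0) :=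
        hasSum_sum_of_ne_finset_zero fun t ht => by rw [if_neg ht]
      convert! h0 using 1
      refine Finset.sum_congr rfl fun t ht => ?_
      rw [if_pos ht]
    refine hasSum_le (fun t => ?_) (hD.pa.add h1) hU.pa
    rw [tco_eq]
    by_cases h1 : t ∈ Sp
    · have h2 : -t ∉ Sp := fun h' => by linarith [(hSpos _ h').1, (hSpos _ h1).1]
      rw [if_pos h1, if_neg h2]
      have e : b t + -1 * (b t + 0) = 0 := by ring
      rw [e, norm_zero]
      split_ifs
      · simp
      · simp
    · by_cases h2 : -t ∈ Sp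
      · rw [if_neg h1, if_pos h2, hbc]
        have e : b t + -1 * (0 + b t) = 0 := by ring
        rw [e, norm_zero]
        split_ifs
        · simp
        · simp
      · rw [if_neg h1, if_neg h2, add_zero, mul_zero, add_zero]
        split_ifs with h3
        · have h4 : |t| ∈ S := hS (Finset.mem_image_of_mem _ h3)
          have h5 : b t = 0 := by
            by_contra hne
            have ht0 : t ≠ 0 := fun h' => hne (by rw [h', hb00])
            have hmt : m t ≠ 0 := fun h' => hne (hb0 t h')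
            rcases lt_or_gt_of_ne ht0 with h6 | h6
            · refine h2 (Finset.mem_filter.2 ⟨?_, by linarith, by rwa [hm]⟩)
              rwa [abs_of_neg h6] at h4
            · refine h1 (Finset.mem_filter.2 ⟨?_, h6, hmt⟩)
              rwa [abs_of_pos h6] at h4
          rw [h5]
          simp
        · simp
  have h1 : W < ε ^ 2 := by linarith [hS₁.1]
  have h2 := hD.nonneg
  calc √W < √(ε ^ 2) := Real.sqrt_lt_sqrt h2 h1
    _ = ε := Real.sqrt_sq hε.le

/-- **the laws of the trigonometric polynomials** -/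
theorem poly_lawS (P : Par (fun u => (f u : ℂ)) (cm m) V) (hm : ∀ t, m (-t) = m t) (hM : ModelS m f)
    (S : Finset ℝ) (hS : ∀ s ∈ S, 0 < s) (v : ℝ → ℂ) :
    Tendsto (M fun u => exp ((tpoly (fun j : S => (j : ℝ)) (fun j : S => cm m j * v j) u : ℂ) * I)) atTop
      (𝓝 ((∏ t ∈ S, bz ((m t : ℂ) * v t / t) : ℝ) : ℂ)) := by
  classical
  -- a generic step
  have hsupp : {t : ℝ | cm m t ≠ 0}.Countable := by
    have h1 := P.pa.summable.countable_support
    refine h1.mono fun t ht => ?_
    have : cm m t ≠ 0 := ht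
    show ‖cm m t‖ ^ 2 ≠ 0
    exact pow_ne_zero _ (norm_ne_zero_iff.2 this)
  set D : Set ℝ := ⋃ s ∈ S, ((fun t => t - s) '' {t : ℝ | cm m t ≠ 0} ∪
    (fun t => t + s) '' {t : ℝ | cm m t ≠ 0}) with hD
  have hDc : D.Countable := S.countable_toSet.biUnion fun s _ =>
    (hsupp.image _).union (hsupp.image _)
  obtain ⟨l, hl0, hl⟩ := exists_step hDc
  have hKN : ∀ t, cm m t ≠ 0 → Tendsto (fun N => KN l S v N t) atTop (𝓝 (Ki S v t)) := by
    intro t ht
    refine KN_tendsto v (fun s hs h0 => ?_) fun s hs h0 => ?_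
    · refine hl _ ?_ h0
      rw [hD]
      simp only [Set.mem_iUnion]
      exact ⟨s, hs, Or.inl ⟨t, ht, rfl⟩⟩
    · refine hl _ ?_ h0
      rw [hD]
      simp only [Set.mem_iUnion]
      exact ⟨s, hs, Or.inr ⟨t, ht, rfl⟩⟩
  set C : ℝ := ∑ s ∈ S, 2 * ‖v s‖ with hC
  have hC0 : 0 ≤ C := Finset.sum_nonneg fun s _ => by positivity
  -- the laws of the averages
  have hmod : ∀ N : ℕ, ∃ L : ℂ, HasProd (fun t : ℝ => ((facS m (KN l S v N t) t : ℝ) : ℂ)) L ∧
      Tendsto (M fun u => exp (((∑ j, xiN l S v N j * f (u + hN l N j) : ℝ) : ℂ) * I)) atTop (𝓝 L) := by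
    intro N
    obtain ⟨L, h1, h2⟩ := hM N (hN l N) (xiN l S v N) fun j => by
      unfold hN
      positivity
    refine ⟨L, ?_, h2⟩
    simp only [kf_eq] at h1
    exact h1
  choose L hL1 hL2 using hmod
  have hcomb : ∀ N : ℕ, ∃ U : ℝ, Par (fun u => ((∑ j, xiN l S v N j * f (u + hN l N j) : ℝ) : ℂ))
      (fun t => cm m t * KN l S v N t) U := by
    intro N
    obtain ⟨U, hU⟩ := comb P (hN l N) (xiN l S v N) fun j => by
      unfold hN
      positivity
    refine ⟨U, ?_⟩
    simp only [kf_eq] at hU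
    exact hU
  choose U hU using hcomb
  -- the polynomial
  obtain ⟨U', hU'⟩ := par_tpoly (fun j : S => (j : ℝ)) (fun j : S => cm m j * v j)
  obtain ⟨z, hz⟩ := Par.exp_mean (g := tpoly (fun j : S => (j : ℝ)) (fun j : S => cm m j * v j)) hU'
  have htco : ∀ t, tco (fun j : S => (j : ℝ)) (fun j : S => cm m j * v j) t = cm m t * Ki S v t := by
    intro t
    rw [tco_eq S fun t => cm m t * v t]
    unfold Ki
    rw [mul_add]
    congr 1
    · split_ifs
      · rfl
      · rw [mul_zero]
    · split_ifs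
      · rw [map_mul, cm_conj hm]
      · rw [mul_zero]
  -- the limit of the laws
  have hlim1 : Tendsto L atTop (𝓝 z) := by
    rw [tendsto_iff_norm_sub_tendsto_zero]
    have hDN : ∀ N : ℕ, ∃ W : ℝ, ‖L N - z‖ ≤ √W ∧
        HasSum (fun t => ‖cm m t * (KN l S v N t - Ki S v t)‖ ^ 2) W := by
      intro N
      have h1 := (hU N).add (hU'.const_mul (-1))
      set W : ℝ := U N + ‖(-1 : ℂ)‖ ^ 2 * U' + 2 * (∑' t, cm m t * KN l S v N t * (starRingEnd ℂ)
        (-1 * tco (fun j : S => (j : ℝ)) (fun j : S => cm m j * v j) t)).re with hW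
      have hD : Par (fun u => ((∑ j, xiN l S v N j * f (u + hN l N j) : ℝ) : ℂ) -
          (tpoly (fun j : S => (j : ℝ)) (fun j : S => cm m j * v j) u : ℂ))
          (fun t => cm m t * KN l S v N t + -1 * tco (fun j : S => (j : ℝ)) (fun j : S => cm m j * v j) t)
          W := by
        convert! h1 using 1
        funext u
        ring
      refine ⟨W, exp_lip (G := fun u => ∑ j, xiN l S v N j * f (u + hN l N j))
        (P := tpoly (fun j : S => (j : ℝ)) (fun j : S => cm m j * v j)) (hU N).loc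
        hU'.loc hD (hL2 N) hz, ?_⟩
      convert! hD.pa using 1
      funext t
      rw [htco]
      congr 2
      ring
    choose W hW1 hW2 using hDN
    have hW3 : Tendsto W atTop (𝓝 0) := by
      have h1 : W = fun N => ∑' t, ‖cm m t * (KN l S v N t - Ki S v t)‖ ^ 2 :=
        funext fun N => (hW2 N).tsum_eq.symm
      rw [h1]
      have h2 : Tendsto (fun N => ∑' t, ‖cm m t * (KN l S v N t - Ki S v t)‖ ^ 2) atTop
          (𝓝 (∑' _ : ℝ, (0 : ℝ))) := by
        refine tendsto_tsum_of_dominated_convergence (bound := fun t => ‖cm m t‖ ^ 2 * (2 * C) ^ 2)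
          (P.pa.summable.mul_right _) (fun t => ?_) (Eventually.of_forall fun N t => ?_)
        · by_cases ht : cm m t = 0
          · simp only [ht, zero_mul, norm_zero]
            simp
          · have h3 := ((hKN t ht).sub_const (Ki S v t)).const_mul (cm m t)
            rw [sub_self, mul_zero] at h3
            have h4 := (h3.norm).pow 2
            rw [norm_zero] at h4
            simpa using h4
        · rw [Real.norm_eq_abs, abs_of_nonneg (by positivity), norm_mul, mul_pow]
          have h3 : ‖KN l S v N t - Ki S v t‖ ≤ 2 * C := by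
            refine (norm_sub_le _ _).trans ?_
            have := KN_norm l S v N t
            have := Ki_norm S v t
            linarith
          gcongr
      rwa [tsum_zero] at h2
    have h5 : Tendsto (fun N => √(W N)) atTop (𝓝 0) := by
      have := (Real.continuous_sqrt.tendsto 0).comp hW3
      rwa [Real.sqrt_zero] at this
    exact squeeze_zero (fun N => norm_nonneg _) hW1 h5
  have hlim2 : Tendsto L atTop (𝓝 ((∏ t ∈ S, bz ((m t : ℂ) * v t / t) : ℝ) : ℂ)) := by
    have h1 : L = fun N => ∏' t, (1 + (((facS m (KN l S v N t) t : ℝ) : ℂ) - 1)) := by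
      funext N
      rw [← (hL1 N).tprod_eq]
      refine tprod_congr fun t => ?_
      ring
    have h2 : Tendsto (fun N => ∏' t, (1 + (((facS m (KN l S v N t) t : ℝ) : ℂ) - 1))) atTop
        (𝓝 (∏' t, (1 + (((facS m (Ki S v t) t : ℝ) : ℂ) - 1)))) := by
      refine tendsto_tprod_one_add_of_dominated_convergence
        (bound := fun t => 2 * C ^ 2 * ‖cm m t‖ ^ 2) (P.pa.summable.mul_left _) (fun t => ?_)
        (Eventually.of_forall fun N t => facS_near m _ (KN_norm l S v N t) t)
      refine Tendsto.sub_const ?_ 1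
      refine (Complex.continuous_ofReal.tendsto _).comp ?_
      unfold facS
      split_ifs with ht
      · by_cases hmt : m t = 0
        · rw [hmt]
          simp
        · have hne : cm m t ≠ 0 := by
            rw [← norm_ne_zero_iff, norm_cm]
            have h3 : (m t : ℝ) ≠ 0 := by exact_mod_cast hmt
            positivity
          exact (bz_cont.tendsto _).comp (((hKN t hne).const_mul _).div_const _)
      · exact tendsto_const_nhds
    rw [h1]
    convert! h2 using 2
    have h3 : ∀ t ∉ S, (1 + (((facS m (Ki S v t) t : ℝ) : ℂ) - 1)) = 1 := by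
      intro t ht
      unfold facS
      split_ifs with h0
      · have h4 : Ki S v t = 0 := by
          unfold Ki
          rw [if_neg ht, if_neg fun h' => by linarith [hS _ h'], add_zero]
        rw [h4, mul_zero, zero_div, bz_zero]
        simp
      · simp
    rw [tprod_eq_prod h3, Complex.ofReal_prod]
    refine Finset.prod_congr rfl fun t ht => ?_
    unfold facS
    have h5 : Ki S v t = v t := by
      unfold Ki
      rw [if_pos ht, if_neg fun h' => by linarith [hS _ h', hS _ ht], add_zero]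
    rw [if_pos (hS t ht), h5]
    ring
  rw [← tendsto_nhds_unique hlim1 hlim2]
  exact hz

/-- **The random model forces linear independence.** -/
theorem li_of_modelS (P : Par (fun u => (f u : ℂ)) (cm m) V) (hm : ∀ t, m (-t) = m t) (hM : ModelS m f) :
    LinS m := by
  classical
  have key : ∀ S : Finset ℝ, (∀ t ∈ S, 0 < t ∧ m t ≠ 0) → ∀ n : S → ℤ,
      ∑ j, (n j : ℝ) * (j : ℝ) = 0 → n = 0 := by
    intro S hS
    refine li_of_kw fun w => ?_
    set v : ℝ → ℂ := fun t => if ht : t ∈ S then w ⟨t, ht⟩ / cm m t else 0 with hv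
    have h1 := poly_lawS P hm hM S (fun s hs => (hS s hs).1) v
    have hne : ∀ t ∈ S, cm m t ≠ 0 := by
      intro t ht
      obtain ⟨h2, h3⟩ := hS t ht
      rw [← norm_ne_zero_iff, norm_cm]
      have h4 : (m t : ℝ) ≠ 0 := by exact_mod_cast h3
      positivity
    have e1 : (fun j : S => cm m j * v j) = w := by
      funext j
      rw [hv]
      simp only
      rw [dif_pos j.2, mul_div_cancel₀ _ (hne j j.2)]
    rw [e1] at h1
    convert! h1 using 2
    congr 1
    rw [← Finset.prod_coe_sort S fun t => bz ((m t : ℂ) * v t / t)]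
    refine Finset.prod_congr rfl fun j _ => ?_
    obtain ⟨h2, h3⟩ := hS j j.2
    have h4 : (m j : ℝ) ≠ 0 := by exact_mod_cast h3
    refine bz_norm ?_
    rw [hv]
    simp only
    rw [dif_pos j.2, norm_div, norm_mul, norm_div, norm_cm, Complex.norm_natCast, Complex.norm_real,
      Real.norm_eq_abs, abs_of_pos h2]
    field_simp
  refine linearIndepOn_of_finite _ fun T hT hfin => ?_
  have h1 : LinearIndepOn ℚ id ((hfin.toFinset : Finset ℝ) : Set ℝ) := by
    have h2 : LinearIndependent ℤ fun j : hfin.toFinset => (j : ℝ) := by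
      rw [Fintype.linearIndependent_iff]
      intro g hg i
      have h3 := key hfin.toFinset (fun t ht => hT (by simpa using ht)) g (by
        rw [← hg]
        refine Finset.sum_congr rfl fun j _ => ?_
        rw [zsmul_eq_mul])
      exact congrFun h3 i
    have h4 := (LinearIndependent.iff_fractionRing (R := ℤ) (K := ℚ)).1 h2
    exact h4
  rwa [hfin.coe_toFinset] at h1

/-- **The random model** for `E(x)`: for all shifts `h_j ≥ 0` and real weights `ξ_j` the mean of
`exp (i ∑ ξ_j E(x e^{h_j}))` with respect to `dx/x` is the (unconditionally convergent) product over `t > 0` of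
`J₀(2 m_t |∑ ξ_j e^{i t h_j}|/t)`. -/
def RandomModelS (m : ℝ → ℕ) (E : ℝ → ℝ) : Prop :=
  ∀ (k : ℕ) (h ξ : Fin k → ℝ), (∀ j, 0 ≤ h j) →
    ∃ L : ℂ, HasProd (fun t : ℝ => ((facS m (kf h ξ t) t : ℝ) : ℂ)) L ∧
      Tendsto (fun X : ℝ => (∫ x in Real.exp 1..X,
        exp (((∑ j, ξ j * E (x * Real.exp (h j)) : ℝ) : ℂ) * I) / x) / Real.log X) atTop (𝓝 L)

theorem model_iffS {m : ℝ → ℕ} {W : ℝ → ℝ} (hW : BM W) : RandomModelS m W ↔ ModelS m (cut W) := by
  unfold RandomModelS ModelS
  refine forall_congr' fun k => forall_congr' fun h => forall_congr' fun ξ => forall_congr' fun hh => ?_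
  refine exists_congr fun L => and_congr_right fun _ => ?_
  have hL2 : Pool.Agent.Q5.AP.L2 fun u => ((∑ j, ξ j * cut W (u + h j) : ℝ) : ℂ) := by
    have h1 : ∀ s : Finset (Fin k), Pool.Agent.Q5.AP.L2 fun u => ((∑ j ∈ s, ξ j * cut W (u + h j) : ℝ) : ℂ) := by
      intro s
      classical
      induction s using Finset.induction_on with
      | empty =>
        simp only [Finset.sum_empty]
        exact Pool.Agent.Q5.AP.l2_cont continuous_const
      | insert i s hi ih =>
        have h2 := ((L2.shift (Pool.Agent.Q5.AP.cut_l2 hW) (hh i)).const_mul (ξ i : ℂ)).add ih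
        simp only [Finset.sum_insert hi]
        convert! h2 using 1
        funext u
        push_cast
        rfl
    exact h1 Finset.univ
  have hint : ∀ T : ℝ, 0 < T → IntervalIntegrable
      (fun u => exp (((∑ j, ξ j * cut W (u + h j) : ℝ) : ℂ) * I)) volume 0 T :=
    fun T hT => Pool.Agent.Q5.AP.exp_int (g := fun u => ∑ j, ξ j * cut W (u + h j)) hL2 hT
  unfold M
  rw [Pool.Agent.Q5.BP.mean_from_one hint]
  have key : ∀ T : ℝ, 1 ≤ T → (∫ u in (1 : ℝ)..T, exp (((∑ j, ξ j * cut W (u + h j) : ℝ) : ℂ) * I)) =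
      ∫ x in Real.exp 1..Real.exp T, exp (((∑ j, ξ j * W (x * Real.exp (h j)) : ℝ) : ℂ) * I) / x := by
    intro T hT
    have e1 := Pool.Agent.Q5.BP.cov_iiC
      (fun u => exp (((∑ j, ξ j * W (Real.exp u * Real.exp (h j)) : ℝ) : ℂ) * I)) hT
    have e2 : (∫ u in (1 : ℝ)..T, exp (((∑ j, ξ j * cut W (u + h j) : ℝ) : ℂ) * I)) =
        ∫ u in (1 : ℝ)..T, exp (((∑ j, ξ j * W (Real.exp u * Real.exp (h j)) : ℝ) : ℂ) * I) := by
      refine intervalIntegral.integral_congr_ae (Eventually.of_forall fun u hu => ?_)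
      rw [uIoc_of_le hT] at hu
      have e3 : ∀ j, cut W (u + h j) = W (Real.exp u * Real.exp (h j)) := by
        intro j
        rw [Pool.Agent.Q5.AP.cut_of W (by linarith [hu.1, hh j]), Real.exp_add]
      simp only [e3]
    rw [e2, ← e1]
    refine intervalIntegral.integral_congr fun y hy => ?_
    rw [uIcc_of_le (Real.exp_le_exp.2 hT)] at hy
    rw [Real.exp_log ((Real.exp_pos 1).trans_le hy.1)]
  constructor
  · intro h1
    have h2 := h1.comp Real.tendsto_exp_atTop
    refine h2.congr' ?_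
    filter_upwards [eventually_ge_atTop 1] with T hT
    rw [Function.comp_apply, key T hT, Real.log_exp]
  · intro h1
    have h2 := h1.comp Real.tendsto_log_atTop
    refine h2.congr' ?_
    filter_upwards [eventually_ge_atTop (Real.exp 1)] with X hX
    have hl : 1 ≤ Real.log X := Pool.Agent.TH270.MS.one_le_log hX
    rw [Function.comp_apply, key _ hl, Real.exp_log ((Real.exp_pos 1).trans_le hX)]

/-- **Linear independence and the random model.** -/
theorem li_iffS {m : ℝ → ℕ} {W : ℝ → ℝ} {V : ℝ} (hW : BM W)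
    (P : Par (fun u => (cut W u : ℂ)) (cm m) V) : LinS m ↔ RandomModelS m W := by
  have hm := even_of_par P
  rw [model_iffS hW]
  exact ⟨fun h => model_of_liS P hm h, fun h => li_of_modelS P hm h⟩

end Pool.Agent.Q5.LI
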